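import Pool.Agent.Helper47.GonQ

set_option autoImplicit false

/-!
# Goncharov's complexes at the last two places: the statements for `GonP`
-/

namespace Helper47.Gon

open GonP

variable {F : Type} [Field F]

/-! ### definitions used in the statement -/

/-- `T` is the `ℚ`-linear map `B_2(F)_ℚ → (B_2(F) ⊗ Λ^j F^*)_ℚ`, `{x}_2 ↦ {x}_2 ⊗ y_1 ∧ ... ∧ y_j` -/
def IsMul (j : ℕ) (y : Fin j → UV F) (T : TQ F 2 0 → TQ F 2 j) : Prop :=
  IsLinearMap ℚ T ∧ ∀ (x : P1 F) (z : Fin 0 → UV F), T (tq 2 0 x z) = tq 2 j x y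

/-- The subspace of `(B_2(F) ⊗ Λ^{j+1} F^*)_ℚ` spanned by all `{x}_2 ⊗ x ∧ y_1 ∧ ... ∧ y_j` (they
span the image of the differential of `(B_3(F) ⊗ Λ^j F^*)_ℚ`) and all `κ ⊗ y_0 ∧ ... ∧ y_j` with
`κ ∈ B_2(F)_ℚ` in the kernel of `e0`. -/
noncomputable def DecSpan (F : Type) [Field F] (e0 : TQ F 2 0 → LQ F 2) (j : ℕ) :
    Submodule ℚ (TQ F 2 (j + 1)) :=
  Submodule.span ℚ
    ({u | ∃ (x : F) (y : Fin j → UV F), x ≠ 0 ∧ u = tq 2 (j + 1) (some x) (Fin.cons (cl x) y)} ∪
    {u | ∃ (y : Fin (j + 1) → UV F) (T : TQ F 2 0 → TQ F 2 (j + 1)) (κ : TQ F 2 0),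
      IsMul (j + 1) y T ∧ e0 κ = 0 ∧ u = T κ})

/-! ### the differential `e` -/

/-- the differential -/
noncomputable def eG (F : Type) [Field F] (j : ℕ) : TQ F 2 j → LQ F (j + 2) :=
  fun x => (eLQ F (j + 2)).symm (H39Gon.e1e F j (eT F 0 j x))

theorem eG_isE (j : ℕ) : IsE j (eG F j) := by
  have he := isE'_e1e (F := F) j
  unfold eG
  refine ⟨⟨fun x y => ?_, fun c x => ?_⟩, fun y => ?_, fun y => ?_, fun y => ?_,
      fun x y hx hx1 => ?_⟩
  · rw [map_add, map_add, map_add]
  · rw [map_smul, map_smul, map_smul]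
  · beta_reduce
    rw [show eT F 0 j (tq 2 j none y) = H39Gon.tq F 2 j none y from
      eT_tq 0 j none y, he.e_inf, map_zero]
  · beta_reduce
    rw [show eT F 0 j (tq 2 j (some 0) y) = H39Gon.tq F 2 j (some 0) y from
      eT_tq 0 j (some 0) y, he.e_zero, map_zero]
  · beta_reduce
    rw [show eT F 0 j (tq 2 j (some 1) y) = H39Gon.tq F 2 j (some 1) y from
      eT_tq 0 j (some 1) y, he.e_one, map_zero]
  · beta_reduce
    rw [show eT F 0 j (tq 2 j (some x) y) = H39Gon.tq F 2 j (some x) y from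
      eT_tq 0 j (some x) y, he.e_some _ _ hx hx1]
    exact eLQ_symm_lq (j + 2) _

theorem isE_unique (j : ℕ) (e e' : TQ F 2 j → LQ F (j + 2)) (b : IsE j e) (a : IsE j e') :
    e = e' := by
  apply text_P 0 j _ _ b.1 a.1
  intro x y
  rcases x with _ | x
  · exact (b.2.1 y).trans (a.2.1 y).symm
  · by_cases hx : x = 0
    · subst hx; exact (b.2.2.1 y).trans (a.2.2.1 y).symm
    · by_cases hx1 : x = 1
      · subst hx1; exact (b.2.2.2.1 y).trans (a.2.2.2.1 y).symm
      · exact (b.2.2.2.2 x y hx hx1).trans (a.2.2.2.2 x y hx hx1).symm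

theorem eG_surj (h : H39Gon.SpanDual F 0) (j : ℕ) : Function.Surjective (eG F j) :=
  (eLQ F (j + 2)).symm.surjective.comp
    ((surj_e h (H39Gon.e1e F j) (isE'_e1e j)).comp (eT F 0 j).surjective)

/-- the product -/
noncomputable def mulG (F : Type) [Field F] (j : ℕ) (y : Fin j → UV F) : TQ F 2 0 → TQ F 2 j :=
  fun x => (eT F 0 j).symm (mulT F j y (eT F 0 0 x))

theorem mulG_isMul (j : ℕ) (y : Fin j → UV F) : IsMul j y (mulG F j y) := by
  unfold mulG
  refine ⟨⟨fun x y => ?_, fun c x => ?_⟩, fun x z => ?_⟩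
  · rw [map_add, map_add, map_add]
  · rw [map_smul, map_smul, map_smul]
  · beta_reduce
    rw [show eT F 0 0 (tq 2 0 x z) = H39Gon.tq F 2 0 x z from eT_tq 0 0 x z]
    rw [show mulT F j y (H39Gon.tq F 2 0 x z) = H39Gon.tq F 2 j x y from mulT_apply j y x z]
    exact eT_symm_tq 0 j x y

theorem isMul_unique (j : ℕ) (y : Fin j → UV F) (T T' : TQ F 2 0 → TQ F 2 j) (h : IsMul j y T)
    (h' : IsMul j y T') : T = T' := by
  apply text_P 0 0 _ _ h.1 h'.1
  intro x z
  exact (h.2 x z).trans (h'.2 x z).symm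

theorem eT_mulG (j : ℕ) (y : Fin j → UV F) (κ : TQ F 2 0) :
    eT F 0 j (mulG F j y κ) = mulT F j y (eT F 0 0 κ) := by
  unfold mulG
  rw [LinearEquiv.apply_symm_apply]

theorem eG_zero_iff (j : ℕ) (u : TQ F 2 j) :
    eG F j u = 0 ↔ H39Gon.e1e F j (eT F 0 j u) = 0 := by
  unfold eG
  rw [LinearEquiv.map_eq_zero_iff]

theorem mem_decSpan (hsd : H39Gon.SpanDual F 1) (j : ℕ) (u : TQ F 2 (j + 1)) :
    eG F (j + 1) u = 0 ↔ u ∈ DecSpan F (eG F 0) j := by
  rw [eG_zero_iff, mem_Dec hsd (H39Gon.e1e F (j + 1)) (isE'_e1e (j + 1))]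
  constructor
  · intro hu
    have h : ∀ v ∈ Dec F j, (eT F 0 (j + 1)).symm v ∈ DecSpan F (eG F 0) j := by
      intro v hv
      unfold Dec at hv
      induction hv using Submodule.span_induction with
      | mem v hv =>
        rcases hv with ⟨x, y, hx, rfl⟩ | ⟨y, κ, hκ, rfl⟩
        · exact Submodule.subset_span (Or.inl ⟨x, y, hx, eT_symm_tq 0 (j + 1) (some x) _⟩)
        · refine Submodule.subset_span (Or.inr ⟨y, mulG F (j + 1) y, (eT F 0 0).symm κ,
            mulG_isMul (j + 1) y, ?_, ?_⟩)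
          · have h3 := (eG_zero_iff (F := F) 0 ((eT F 0 0).symm κ)).2
            rw [LinearEquiv.apply_symm_apply] at h3
            exact h3 hκ
          · unfold mulG
            rw [LinearEquiv.apply_symm_apply]
      | zero => rw [map_zero]; exact Submodule.zero_mem _
      | add a b _ _ ha hb => rw [map_add]; exact Submodule.add_mem _ ha hb
      | smul c a _ ha => rw [map_smul]; exact Submodule.smul_mem _ c ha
    have h2 := h _ hu
    rwa [LinearEquiv.symm_apply_apply] at h2
  · intro hu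
    unfold DecSpan at hu
    induction hu using Submodule.span_induction with
    | mem u hu =>
      rcases hu with ⟨x, y, hx, rfl⟩ | ⟨y, T, κ, hT, hκ, rfl⟩
      · have h3 := eT_tq (F := F) 0 (j + 1) (some x) (Fin.cons (cl x) y)
        exact Submodule.subset_span (Or.inl ⟨x, y, hx, h3⟩)
      · rw [isMul_unique (j + 1) y T (mulG F (j + 1) y) hT (mulG_isMul (j + 1) y), eT_mulG]
        exact Submodule.subset_span (Or.inr ⟨y, eT F 0 0 κ, (eG_zero_iff (F := F) 0 κ).1 hκ, rfl⟩)
    | zero => rw [map_zero]; exact Submodule.zero_mem _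
    | add a b _ _ ha hb => rw [map_add]; exact Submodule.add_mem _ ha hb
    | smul c a _ ha => rw [map_smul]; exact Submodule.smul_mem _ c ha

/-! ### the rational function fields -/

section ratFunc

variable (k : Type) [Field k] (p : ℕ) [Fact p.Prime] [Algebra (ZMod p) k]
  [Algebra.IsAlgebraic (ZMod p) k]

open Pool.Agent.TH358.GP in
include p in
theorem ratFunc_main : ∃ D : Differentials (RatFunc k), (∀ D' : Differentials (RatFunc k), D' = D) ∧
    (∀ m, Function.Injective (D.d m 0)) ∧ Function.Injective (D.e 0) ∧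
    (∀ j, Function.Exact (D.d 0 j) (D.e (j + 1))) ∧ ∀ j, Function.Surjective (D.e j) := by
  have : CharP k p := charP_of_injective_algebraMap (algebraMap (ZMod p) k).injective p
  have hk := H39Gon.frob_fix k p
  obtain ⟨h0, h1⟩ := Y775.W3.span_poly k p
  have hloc := (Y775.W3.hLOC).1 p k
  have hS : EvS (RatFunc k) := evS_ratFunc k (evS_base hloc)
  obtain ⟨D, hD, h2, h3⟩ := (main_class (RatFunc k) hS).1
  have he : D.e = eG (RatFunc k) := by
    funext j
    exact isE_unique j _ _ (D.e_spec j) (eG_isE j)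
  refine ⟨D, hD, h2, h3, fun j => ?_, fun j => ?_⟩
  · intro u
    rw [he, mem_decSpan h1]
    constructor
    · intro hu
      unfold DecSpan at hu
      induction hu using Submodule.span_induction with
      | mem u hu =>
        rcases hu with ⟨x, y, hx, rfl⟩ | ⟨y, T, κ, hT, hκ, rfl⟩
        · exact ⟨tq 3 j (some x) y, (D.d_spec 0 j).2.2.2 x y hx⟩
        · have h4 : κ = 0 := by
            apply h3
            rw [he, hκ]
            have h5 := ((D.e_spec 0).1.mk' (D.e 0)).map_zero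
            rw [IsLinearMap.mk'_apply, he] at h5
            exact h5.symm
          refine ⟨0, ?_⟩
          have h5 := ((D.d_spec 0 j).1.mk' (D.d 0 j)).map_zero
          rw [IsLinearMap.mk'_apply] at h5
          have h6 := (hT.1.mk' T).map_zero
          rw [IsLinearMap.mk'_apply] at h6
          rw [h5, h4, h6]
      | zero =>
        refine ⟨0, ?_⟩
        have h5 := ((D.d_spec 0 j).1.mk' (D.d 0 j)).map_zero
        rw [IsLinearMap.mk'_apply] at h5
        exact h5
      | add a b _ _ ha hb =>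
        obtain ⟨a', ha'⟩ := ha
        obtain ⟨b', hb'⟩ := hb
        exact ⟨a' + b', by rw [(D.d_spec 0 j).1.1, ha', hb']⟩
      | smul c a _ ha =>
        obtain ⟨a', ha'⟩ := ha
        exact ⟨c • a', by rw [(D.d_spec 0 j).1.2, ha']⟩
    · rintro ⟨v, rfl⟩
      have hr : ∀ v : TQ (RatFunc k) (0 + 1 + 2) j,
          D.d 0 j v ∈ DecSpan (RatFunc k) (eG (RatFunc k) 0) j := by
        intro v
        let f : TQ (RatFunc k) (0 + 1 + 2) j →ₗ[ℚ]
            (TQ (RatFunc k) 2 (j + 1) ⧸ DecSpan (RatFunc k) (eG (RatFunc k) 0) j) :=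
          (DecSpan (RatFunc k) (eG (RatFunc k) 0) j).mkQ ∘ₗ ((D.d_spec 0 j).1.mk' (D.d 0 j))
        have hf : (f : TQ (RatFunc k) (0 + 1 + 2) j → _) = fun _ => 0 := by
          refine text_P (0 + 1) j _ _ f.isLinear ⟨fun _ _ => (add_zero _).symm,
            fun c _ => (smul_zero c).symm⟩ ?_
          intro x y
          change (DecSpan (RatFunc k) (eG (RatFunc k) 0) j).mkQ (D.d 0 j (tq 3 j x y)) = 0
          have h8 := (D.d_spec 0 j).2
          rcases x with _ | x
          · have h9 : D.d 0 j (tq 3 j none y) = 0 := h8.1 y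
            rw [h9, map_zero]
          · by_cases hx : x = 0
            · subst hx
              have h9 : D.d 0 j (tq 3 j (some 0) y) = 0 := h8.2.1 y
              rw [h9, map_zero]
            · have h9 : D.d 0 j (tq 3 j (some x) y) = tq 2 (j + 1) (some x) (Fin.cons (cl x) y) :=
                h8.2.2 x y hx
              rw [h9, Submodule.mkQ_apply, Submodule.Quotient.mk_eq_zero]
              exact Submodule.subset_span (Or.inl ⟨x, y, hx, rfl⟩)
        have h7 := congrFun hf v
        rwa [LinearMap.comp_apply, Submodule.mkQ_apply, Submodule.Quotient.mk_eq_zero] at h7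
      exact hr v
  · rw [he]
    exact eG_surj h0 j

end ratFunc

end Helper47.Gon
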