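import Pool.Agent.Y775.W3.All
import Pool.Agent.TH358.GP.Cls
import Pool.Agent.H39R2.GonP.Bridge

set_option autoImplicit false

/-!
# Exactness of Goncharov's complexes at the last two places
-/

namespace Helper47.Gon

open scoped TensorProduct
open H39Gon H39Gon.E2

variable {F : Type} [Field F]

/-- `e` is the differential `(B_2 ⊗ Λ^j)_ℚ → (Λ^{j+2})_ℚ` -/
structure IsE' (j : ℕ) (e : TQ F 2 j →ₗ[ℚ] LQ F (j + 2)) : Prop where
  e_inf : ∀ y, e (tq F 2 j none y) = 0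
  e_zero : ∀ y, e (tq F 2 j (some 0) y) = 0
  e_one : ∀ y, e (tq F 2 j (some 1) y) = 0
  e_some : ∀ (x : F) y, x ≠ 0 → x ≠ 1 → e (tq F 2 j (some x) y) =
    lq F (j + 2) (Fin.cons (cl (1 - x)) (Fin.cons (cl x) y))

theorem isE'_e1e (j : ℕ) : IsE' j (e1e F j) := by
  refine ⟨?_, ?_, ?_, ?_⟩
  · intro y
    rw [e1e_apply, e1ev_none]
    rfl
  · intro y
    rw [e1e_apply, e1ev_some, e1Psi_apply, e1Psi2_apply, e1cl_zero]
    unfold lq
    rw [(exteriorPower.ιMulti ℤ (j + 2)).map_coord_zero (i := 1) (by simp),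
      TensorProduct.tmul_zero]
  · intro y
    rw [e1e_apply, e1ev_some, e1Psi_apply, e1Psi2_apply, e1cl_one]
    unfold lq
    rw [(exteriorPower.ιMulti ℤ (j + 2)).map_coord_zero (i := 1) (by simp),
      TensorProduct.tmul_zero]
  · intro x y _ _
    rw [e1e_apply, e1ev_some, e1Psi_apply, e1Psi2_apply]

/-- the value of `e` at all generators -/
theorem IsE'.all {j : ℕ} {e : TQ F 2 j →ₗ[ℚ] LQ F (j + 2)} (he : IsE' j e) (x : F) (y) :
    e (tq F 2 j (some x) y) = lq F (j + 2) (Fin.cons (cl (1 - x)) (Fin.cons (cl x) y)) := by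
  by_cases hx : x = 0
  · subst hx
    rw [he.e_zero, e1cl_zero]
    unfold lq
    rw [(exteriorPower.ιMulti ℤ (j + 2)).map_coord_zero (i := 1) (by simp),
      TensorProduct.tmul_zero]
  · by_cases hx1 : x = 1
    · subst hx1
      rw [he.e_one, e1cl_one]
      unfold lq
      rw [(exteriorPower.ιMulti ℤ (j + 2)).map_coord_zero (i := 1) (by simp),
        TensorProduct.tmul_zero]
    · exact he.e_some x y hx hx1

theorem step_e' (hsd : SpanDual F 1) {j : ℕ} (e : TQ F 2 j →ₗ[ℚ] LQ F (j + 2)) (he : IsE' j e)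
    (φ : TQ F 2 j →ₗ[ℚ] ℚ)
    (Ψ : UV F →ₗ[ℤ] UV F →ₗ[ℤ] MultilinearMap ℤ (fun _ : Fin 0 => UV F)
      (UV F [⋀^Fin j]→ₗ[ℤ] ℚ)) (hΨ : ∀ a, Ψ a a = 0) (hev : toTheta φ = ev Ψ)
    (hφ : ∀ (i : ℕ) (hi : j = i + 1) (x : F) (y : Fin i → UV F), x ≠ 0 →
      φ (tq F 2 j (some x) ((Fin.cons (cl x) y : Fin (i + 1) → UV F) ∘ Fin.cast hi)) = 0) :
    ∃ ψ : LQ F (j + 2) →ₗ[ℚ] ℚ, ∀ v, φ v = ψ (e v) := by
  have hnone : ∀ y, φ (tq F 2 j none y) = 0 := by
    intro y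
    rw [← toTheta_apply, hev, ev_none]
    rfl
  have hsome : ∀ x y, φ (tq F 2 j (some x) y) =
      Ψ (cl (1 - x)) (cl x) (fun _ => cl x) y := by
    intro x y
    rw [← toTheta_apply, hev, ev_some]
  let Q : UV F →ₗ[ℤ] (UV F →ₗ[ℤ] (UV F [⋀^Fin j]→ₗ[ℤ] ℚ)) :=
    LinearMap.mk₂ ℤ (fun s v => Ψ v s Fin.elim0)
      (fun a b c => by simp) (fun a b c => by simp) (fun a b c => by simp)
      (fun a b c => by simp)
  have hQ : ∀ s v, Q s v = Ψ v s (fun _ => s) := by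
    intro s v
    change Ψ v s Fin.elim0 = _
    congr 1
    exact Subsingleton.elim _ _
  obtain ⟨Θ, hΘ⟩ := koszul_last j Q (by
      intro s
      rw [hQ, hΨ]
      rfl) (by
      intro i hi s v y
      subst hi
      have h1 := hsd (MultilinearMap.uncurryRight
        (M := fun _ : Fin (1 + 1) => UV F)
        ((flipTail y).compMultilinearMap (qOf Ψ))) (by
          intro f hf0 hf1
          change qOf Ψ (fun _ => cl f) (cl (1 - f)) (Fin.cons (cl f) y) = 0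
          rw [qOf_apply, ← hsome]
          exact hφ i rfl f y hf0) s v
      have h2 : qOf Ψ (fun _ => s) v (Fin.cons s y) = 0 := h1
      rw [qOf_apply] at h2
      rw [hQ]
      exact h2)
  refine ⟨ofAlt Θ, fun v => ?_⟩
  have h2 : φ = (ofAlt Θ) ∘ₗ e := by
    apply text
    intro x y
    rw [LinearMap.comp_apply]
    rcases x with _ | x
    · rw [hnone, he.e_inf, map_zero]
    · rw [he.all, ofAlt_apply, hΘ, hQ, hsome]
  rw [h2]
  rfl

theorem surj_e (hsd : SpanDual F 0) {j : ℕ} (e : TQ F 2 j →ₗ[ℚ] LQ F (j + 2)) (he : IsE' j e) :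
    Function.Surjective e := by
  apply surjective_of_dual
  intro χ hχ
  apply lext
  intro z
  rw [LinearMap.zero_apply, ← toAlt_apply]
  have h1 : ∀ (y : Fin j → UV F) (s v : UV F), toAlt χ (Fin.cons v (Fin.cons s y)) = 0 := by
    intro y s v
    have h2 := hsd (MultilinearMap.ofSubsingleton ℤ (UV F)
      (UV F →ₗ[ℤ] ℚ) (0 : Fin 1)
      (LinearMap.flip ((evalTail y) ∘ₗ (toAlt χ).curryLeft))) (by
        intro f hf0 hf1
        change toAlt χ (Fin.cons (cl (1 - f)) (Fin.cons (cl f) y)) = 0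
        rw [toAlt_apply, ← he.e_some f y hf0 hf1]
        exact hχ _) s v
    exact h2
  have h3 := h1 (Fin.tail (Fin.tail z)) (Fin.tail z 0) (z 0)
  rwa [Fin.cons_self_tail, Fin.cons_self_tail] at h3

/-! ### the products with `y_1 ∧ ... ∧ y_j` -/

/-- the coordinate of `Λ^0 V = ℤ` -/
noncomputable def c0' (V : Type) [AddCommGroup V] : (⋀[ℤ]^0 V) →ₗ[ℤ] ℤ :=
  exteriorPower.alternatingMapLinearEquiv (AlternatingMap.constOfIsEmpty ℤ V (Fin 0) (1 : ℤ))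

theorem c0'_apply (V : Type) [AddCommGroup V] (y : Fin 0 → V) :
    c0' V (exteriorPower.ιMulti ℤ 0 y) = 1 := by
  unfold c0'
  rw [exteriorPower.alternatingMapLinearEquiv_apply_ιMulti]
  rfl

/-- `l ↦ w ↦ w • l` for `w ∈ Λ^0 V = ℤ` -/
noncomputable def m0 (V L : Type) [AddCommGroup V] [AddCommGroup L] :
    L →ₗ[ℤ] ((⋀[ℤ]^0 V) →ₗ[ℤ] L) :=
  LinearMap.mk₂ ℤ (fun l w => c0' V w • l) (by intro a b c; simp) (by intro c a b; exact smul_comm _ _ _)
    (by intro a b c; simp [add_smul]) (by intro c a b; rw [map_smul, smul_eq_mul, mul_smul])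

/-- a functional on `B_2` extended to `B_2 ⊗ Λ^0` -/
noncomputable def ext0 {L : Type} [AddCommGroup L] [Module ℚ L] (θ : ZP F →ₗ[ℤ] L)
    (hθ : ∀ r ∈ R 2 F, θ r = 0) : TQ F 2 0 →ₗ[ℚ] L :=
  e1lift ((m0 (UV F) L) ∘ₗ θ) (fun r hr => by rw [LinearMap.comp_apply, hθ r hr, map_zero])

theorem ext0_apply {L : Type} [AddCommGroup L] [Module ℚ L] (θ : ZP F →ₗ[ℤ] L)
    (hθ : ∀ r ∈ R 2 F, θ r = 0) (x : P1 F) (z : Fin 0 → UV F) :
    ext0 θ hθ (tq F 2 0 x z) = θ (Finsupp.single x 1) := by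
  unfold ext0
  rw [e1lift_apply, LinearMap.comp_apply]
  change c0' (UV F) (exteriorPower.ιMulti ℤ 0 z) • θ (Finsupp.single x 1) = _
  rw [c0'_apply, one_smul]

/-- `α ↦ α ⊗ y_1 ∧ ... ∧ y_j` -/
noncomputable def mulTheta (F : Type) [Field F] (j : ℕ) (y : Fin j → UV F) :
    ZP F →ₗ[ℤ] TQ F 2 j :=
  AddMonoidHom.toIntLinearMap
    (((TensorProduct.mk ℤ ℚ (B 2 F ⊗[ℤ] (⋀[ℤ]^j (UV F))) 1).toAddMonoidHom.comp
      ((TensorProduct.mk ℤ (B 2 F) (⋀[ℤ]^j (UV F))).flip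
        (exteriorPower.ιMulti ℤ j y)).toAddMonoidHom).comp (R 2 F).mkQ.toAddMonoidHom)

theorem mulTheta_apply (j : ℕ) (y : Fin j → UV F) (x : P1 F) :
    mulTheta F j y (Finsupp.single x 1) = tq F 2 j x y := rfl

theorem mulTheta_R (j : ℕ) (y : Fin j → UV F) (r : ZP F) (hr : r ∈ R 2 F) :
    mulTheta F j y r = 0 := by
  have h : (R 2 F).mkQ r = 0 := by simpa using hr
  change (1 : ℚ) ⊗ₜ[ℤ] (((R 2 F).mkQ r) ⊗ₜ[ℤ] (exteriorPower.ιMulti ℤ j y)) = 0
  rw [h, TensorProduct.zero_tmul, TensorProduct.tmul_zero]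

/-- the product with `y_1 ∧ ... ∧ y_j` -/
noncomputable def mulT (F : Type) [Field F] (j : ℕ) (y : Fin j → UV F) :
    TQ F 2 0 →ₗ[ℚ] TQ F 2 j :=
  ext0 (mulTheta F j y) (mulTheta_R j y)

theorem mulT_apply (j : ℕ) (y : Fin j → UV F) (x : P1 F) (z : Fin 0 → UV F) :
    mulT F j y (tq F 2 0 x z) = tq F 2 j x y := by
  unfold mulT
  rw [ext0_apply, mulTheta_apply]

/-- evaluation, over `ℚ` -/
def evQ {V : Type} [AddCommGroup V] {j : ℕ} (y : Fin j → V) : (V [⋀^Fin j]→ₗ[ℤ] ℚ) →ₗ[ℚ] ℚ where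
  toFun f := f y
  map_add' _ _ := rfl
  map_smul' _ _ := rfl

theorem ext0_toTheta {j : ℕ} (φ : TQ F 2 j →ₗ[ℚ] ℚ) (y : Fin j → UV F) (κ : TQ F 2 0) :
    ext0 (toTheta φ) (toTheta_R φ) κ y = φ (mulT F j y κ) := by
  have h : (evQ y) ∘ₗ ext0 (toTheta φ) (toTheta_R φ) = φ ∘ₗ mulT F j y := by
    apply text
    intro x z
    rw [LinearMap.comp_apply, LinearMap.comp_apply, ext0_apply, mulT_apply]
    exact toTheta_apply φ x y
  exact LinearMap.congr_fun h κ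

theorem exists_factor {A B C : Type} [AddCommGroup A] [Module ℚ A] [AddCommGroup B] [Module ℚ B]
    [AddCommGroup C] [Module ℚ C] (f : A →ₗ[ℚ] B) (g : A →ₗ[ℚ] C)
    (h : ∀ a, f a = 0 → g a = 0) : ∃ k : B →ₗ[ℚ] C, ∀ a, g a = k (f a) := by
  obtain ⟨k, hk⟩ := LinearMap.exists_extend
    (((LinearMap.ker f).liftQ g (fun a ha => h a ha)) ∘ₗ f.quotKerEquivRange.symm.toLinearMap)
  refine ⟨k, fun a => ?_⟩
  have h1 := LinearMap.congr_fun hk ⟨f a, LinearMap.mem_range_self f a⟩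
  rw [LinearMap.comp_apply, LinearMap.comp_apply] at h1
  have h2 : f.quotKerEquivRange.symm ⟨f a, LinearMap.mem_range_self f a⟩ =
      (LinearMap.ker f).mkQ a := by
    rw [LinearEquiv.symm_apply_eq]
    rfl
  rw [LinearEquiv.coe_coe, h2] at h1
  exact h1.symm

/-- `Ψ` from the values on the kernel -/
theorem exists_Psi {j : ℕ} (φ : TQ F 2 j →ₗ[ℚ] ℚ)
    (hK : ∀ κ, e1e F 0 κ = 0 → ∀ y, φ (mulT F j y κ) = 0) :
    ∃ Ψ : UV F →ₗ[ℤ] UV F →ₗ[ℤ] MultilinearMap ℤ (fun _ : Fin 0 => UV F)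
      (UV F [⋀^Fin j]→ₗ[ℤ] ℚ), (∀ a, Ψ a a = 0) ∧ toTheta φ = ev Ψ := by
  obtain ⟨k, hk⟩ := exists_factor (e1e F 0) (ext0 (toTheta φ) (toTheta_R φ)) (by
    intro κ hκ
    ext y
    rw [ext0_toTheta]
    exact hK κ hκ y)
  let z0 : Fin 0 → UV F := Fin.elim0
  let B0 : UV F →ₗ[ℤ] UV F →ₗ[ℤ] (UV F [⋀^Fin j]→ₗ[ℤ] ℚ) :=
    LinearMap.mk₂ ℤ (fun a b => k (e1Psi2 F 0 a b (exteriorPower.ιMulti ℤ 0 z0)))
      (by intro a a' b; simp) (by intro c a b; simp)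
      (by intro a b b'; simp) (by intro c a b; simp)
  refine ⟨B0.compr₂ (MultilinearMap.constLinearEquivOfIsEmpty ℤ ℤ
    (fun _ : Fin 0 => UV F) (UV F [⋀^Fin j]→ₗ[ℤ] ℚ)).toLinearMap, fun a => ?_, ?_⟩
  · have h1 : e1Psi2 F 0 a a = 0 := by
      have h2 := e1Psi_self F 0 a
      have h3 := congrArg (fun f => f z0) h2
      rw [e1Psi_apply] at h3
      exact h3
    ext c : 1
    change k (e1Psi2 F 0 a a (exteriorPower.ιMulti ℤ 0 z0)) = 0
    rw [h1, LinearMap.zero_apply, map_zero]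
  · apply Finsupp.lhom_ext'
    intro x
    apply LinearMap.ext_ring
    rw [LinearMap.comp_apply, LinearMap.comp_apply, Finsupp.lsingle_apply]
    have h4 := hk (tq F 2 0 x z0)
    rw [ext0_apply] at h4
    rw [h4]
    rcases x with _ | x
    · rw [ev_none, (isE'_e1e 0).e_inf, map_zero]
    · rw [ev_some, e1e_apply, e1ev_some, e1Psi_apply]
      rfl

/-! ### the product on `Λ` -/

/-- `κ ∧ y` is zero in `Λ^{j+2}` if `κ` is in the kernel of `e` -/
theorem mulT_ker {j : ℕ} (e : TQ F 2 j →ₗ[ℚ] LQ F (j + 2)) (he : IsE' j e) (y : Fin j → UV F)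
    (κ : TQ F 2 0) (hκ : e1e F 0 κ = 0) : e (mulT F j y κ) = 0 := by
  by_contra hn
  have hn' : e (mulT F j y κ) ∉ (⊥ : Submodule ℚ (LQ F (j + 2))) := by simpa using hn
  obtain ⟨χ, -, h2⟩ := exists_dual_ne hn'
  apply h2
  let Q : UV F →ₗ[ℤ] (UV F →ₗ[ℤ] (UV F [⋀^Fin 0]→ₗ[ℤ] ℚ)) :=
    LinearMap.mk₂ ℤ (fun s v => AlternatingMap.constOfIsEmpty ℤ (UV F) (Fin 0)
        (χ (e1Psi2 F j v s (exteriorPower.ιMulti ℤ j y))))
      (by intro a b c; ext; simp) (by intro a b c; ext; simp) (by intro a b c; ext; simp)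
      (by intro a b c; ext; simp)
  obtain ⟨Θ, hΘ⟩ := koszul_last 0 Q (by
      intro s
      have h1 : e1Psi2 F j s s = 0 := by
        have h2 := e1Psi_self F j s
        have h3 := congrArg (fun f => f (Fin.elim0 : Fin 0 → UV F)) h2
        rw [e1Psi_apply] at h3
        exact h3
      ext z
      change χ (e1Psi2 F j s s (exteriorPower.ιMulti ℤ j y)) = 0
      rw [h1, LinearMap.zero_apply, map_zero]) (fun i hi => by omega)
  have h3 : χ ∘ₗ e ∘ₗ mulT F j y = (ofAlt Θ) ∘ₗ (e1e F 0) := by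
    apply text
    intro x z
    rw [LinearMap.comp_apply, LinearMap.comp_apply, LinearMap.comp_apply, mulT_apply]
    rcases x with _ | x
    · rw [he.e_inf, (isE'_e1e 0).e_inf, map_zero, map_zero]
    · rw [he.all, (isE'_e1e 0).all, ofAlt_apply, hΘ]
      change _ = χ (e1Psi2 F j (cl (1 - x)) (cl x) (exteriorPower.ιMulti ℤ j y))
      rw [e1Psi2_apply]
  have h4 := LinearMap.congr_fun h3 κ
  rw [LinearMap.comp_apply, LinearMap.comp_apply, LinearMap.comp_apply, hκ, map_zero] at h4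
  exact h4

/-- the span of the `{x} ⊗ x ∧ y_1 ∧ ... ∧ y_j` and of the products of `H^1(Γ(F,2)_ℚ)` -/
noncomputable def Dec (F : Type) [Field F] (j : ℕ) : Submodule ℚ (TQ F 2 (j + 1)) :=
  Submodule.span ℚ ({u | ∃ (x : F) (y : Fin j → UV F), x ≠ 0 ∧
      u = tq F 2 (j + 1) (some x) (Fin.cons (cl x) y)} ∪
    {u | ∃ (y : Fin (j + 1) → UV F) (κ : TQ F 2 0), e1e F 0 κ = 0 ∧ u = mulT F (j + 1) y κ})

theorem mem_Dec (hsd : SpanDual F 1) {j : ℕ} (e : TQ F 2 (j + 1) →ₗ[ℚ] LQ F (j + 1 + 2))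
    (he : IsE' (j + 1) e) (u : TQ F 2 (j + 1)) : e u = 0 ↔ u ∈ Dec F j := by
  constructor
  · intro hu
    by_contra hn
    obtain ⟨φ, h1, h2⟩ := exists_dual_ne hn
    apply h2
    obtain ⟨Ψ, hΨ, hev⟩ := exists_Psi φ (fun κ hκ y =>
      h1 _ (Submodule.subset_span (Or.inr ⟨y, κ, hκ, rfl⟩)))
    obtain ⟨ψ, hψ⟩ := step_e' hsd e he φ Ψ hΨ hev (by
      intro i hi x y hx
      obtain rfl : j = i := by omega
      exact h1 _ (Submodule.subset_span (Or.inl ⟨x, y, hx, rfl⟩)))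
    rw [hψ, hu, map_zero]
  · intro hu
    induction hu using Submodule.span_induction with
    | mem u hu =>
      rcases hu with ⟨x, y, hx, rfl⟩ | ⟨y, κ, hκ, rfl⟩
      · rw [he.all]
        unfold lq
        have h1 : exteriorPower.ιMulti ℤ (j + 1 + 2)
            (Fin.cons (cl (1 - x)) (Fin.cons (cl x)
              (Fin.cons (cl x) y : Fin (j + 1) → UV F) :
                Fin (j + 1 + 1) → UV F)) = 0 :=
          AlternatingMap.map_eq_zero_of_eq _ _ (i := ⟨1, by omega⟩) (j := ⟨2, by omega⟩)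
            (by rfl) (by simp [Fin.ext_iff])
        rw [h1, TensorProduct.tmul_zero]
      · exact mulT_ker e he y κ hκ
    | zero => rw [map_zero]
    | add a b _ _ ha hb => rw [map_add, ha, hb, add_zero]
    | smul c a _ ha => rw [map_smul, ha, smul_zero]

end Helper47.Gon
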